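import Pool.Agent.H380R3.ARW.Miss

/-!
# Additive random walks miss, outside a bounded set, every set of dimension `< d - α N`

The definitions used in the statement (`AddWalk`, `rangeSet`, `Dim` and what they rest on) are in
`Pool/Agent/H380R3/ARW/Defs.lean`.
-/

open MeasureTheory ProbabilityTheory

namespace Pool.Agent.Results.MP_8df5c2_pr.SmallDimMissed

open Pool.Agent.H380R3.ARW

/-- Let `ξ` be the increments of `N ≥ 1` independent copies of a transient random walk on `ℤ ^ d`
satisfying the Barlow-Taylor condition with index `α > 0`, where `α N < d`. If the macroscopic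
Hausdorff dimension of the nonrandom set `A` is less than `d - α N`, then the intersection of `A`
with the range of the additive random walk is almost surely bounded. -/
theorem result {d N : ℕ} {Ω : Type*} [MeasurableSpace Ω] (P : Measure Ω)
    [IsProbabilityMeasure P] (α : ℝ) (hα : 0 < α) (hN : 0 < N) (hdim : α * N < d)
    (ξ : Fin N → ℕ → Ω → Fin d → ℤ) (hW : AddWalk P α ξ)
    (A : Set (Fin d → ℤ)) (hA : Dim A < d - α * N) :
    ∀ᵐ ω ∂P, Bornology.IsBounded (rangeSet ξ ω ∩ A) :=
  miss hW hα hN hdim A hA

end Pool.Agent.Results.MP_8df5c2_pr.SmallDimMissed
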